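import Pool.Agent.H59.PG.Stmts

set_option autoImplicit false

namespace Pool.PG

open Filter TMLib

namespace H22

lemma getD_mem (ps : List Game) (k : ℕ) (hk : k < ps.length) : ps.getD k [] ∈ ps := by
  rw [List.getD_eq_getElem _ _ hk]
  exact List.getElem_mem hk

lemma suc_sh (o : ℕ) (e : Vx) : (shE o e).2 = e.2.map fun w => w + o := rfl

lemma vx_nil (v : ℕ) : vx [] v = ((false, 0), []) := by
  unfold vx
  simp

end H22

open H22

theorem cat_row (hE : EMBStmt) (hG : GLUStmt) : CATStmt := by
  intro s ps hps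
  obtain ⟨hlen, hvx⟩ := hG 0 s ps (fun p hp => (hps p hp).2)
  have hvx' : ∀ k < ps.length, ∀ u < s,
      vx (glue 0 s ps) (k * s + u) = shE (k * s) (vx (ps.getD k []) u) := by
    intro k hk u hu
    have := hvx k hk u hu
    rwa [Nat.zero_add] at this
  have hval : Valid (glue 0 s ps) := by
    intro v hv
    rw [hlen] at hv
    have hs : 0 < s := by
      rcases Nat.eq_zero_or_pos s with h | h
      · rw [h, Nat.mul_zero] at hv
        omega
      · exact h
    have hk : v / s < ps.length := Nat.div_lt_of_lt_mul (by rwa [Nat.mul_comm] at hv)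
    have hu : v % s < s := Nat.mod_lt _ hs
    have hdm : v / s * s + v % s = v := by
      rw [Nat.mul_comm]; exact Nat.div_add_mod v s
    obtain ⟨hV, hl⟩ := hps _ (getD_mem ps _ hk)
    obtain ⟨h1, h2⟩ := hV (v % s) (by rw [hl]; exact hu)
    have h3 : suc (glue 0 s ps) v = (suc (ps.getD (v / s) []) (v % s)).map
        fun w => w + v / s * s := by
      have := hvx' _ hk _ hu
      rw [hdm] at this
      unfold suc
      rw [this]
      rfl
    rw [h3, hlen]
    refine ⟨fun h => h1 (List.map_eq_nil_iff.mp h), ?_⟩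
    intro w hw
    rw [List.mem_map] at hw
    obtain ⟨w', hw', rfl⟩ := hw
    have h4 := h2 w' hw'
    rw [hl] at h4
    calc w' + v / s * s < s + v / s * s := by omega
      _ = (v / s + 1) * s := by ring
      _ ≤ ps.length * s := Nat.mul_le_mul_right s hk
  refine ⟨hval, hlen, ?_⟩
  intro k hk u hu
  obtain ⟨hV, hl⟩ := hps _ (getD_mem ps k hk)
  refine hE (ps.getD k []) (glue 0 s ps) (fun u => k * s + u) hV hval ?_ u (by rw [hl]; exact hu)
  intro u' hu'
  rw [hl] at hu'
  have h1 := hvx' k hk u' hu'
  refine ⟨?_, ?_, ?_, ?_⟩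
  · rw [hlen]
    calc k * s + u' < k * s + s := by omega
      _ = (k + 1) * s := by ring
      _ ≤ ps.length * s := Nat.mul_le_mul_right s hk
  · unfold own; rw [h1]; rfl
  · unfold pri; rw [h1]; rfl
  · unfold suc; rw [h1, suc_sh]
    exact List.map_congr_left fun w _ => Nat.add_comm _ _

end Pool.PG
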