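import Pool.Agent.H59.PG.Stmts

set_option autoImplicit false

namespace Pool.PG

open Filter TMLib

theorem lvs_row (hC : CHDStmt) (hP : PRNStmt) : LVSStmt := by
  intro w M v g hM hg hv hsel
  have key : ∀ m, m ≤ g.length → ∀ T : List Game,
      T = (List.range m).foldl (fun T j => prn w M (T.flatMap fun t => chd t j)) [g] →
      (∀ t ∈ T, Valid t ∧ t.length = g.length ∧
        (∀ u, own t u = own g u) ∧ (∀ u, own g u = false → suc t u = suc g u) ∧
        (∀ u < m, own g u = true → ∃ x, suc t u = [x])) ∧
      ((∃ t ∈ T, win t v = true) ↔ win g v = true) := by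
    intro m
    induction m with
    | zero =>
      intro _ T hT
      rw [List.range_zero, List.foldl_nil] at hT
      subst hT
      refine ⟨?_, ?_⟩
      · intro t ht
        rw [List.mem_singleton] at ht
        subst ht
        exact ⟨hg, rfl, fun _ => rfl, fun _ _ => rfl, fun u hu => absurd hu (Nat.not_lt_zero u)⟩
      · constructor
        · rintro ⟨t, ht, h⟩
          rw [List.mem_singleton] at ht
          rwa [ht] at h
        · intro h
          exact ⟨g, List.mem_singleton.mpr rfl, h⟩
    | succ m ih =>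
      intro hm T hT
      obtain ⟨ih1, ih2⟩ := ih (by omega) _ rfl
      rw [List.range_succ, List.foldl_append, List.foldl_cons, List.foldl_nil] at hT
      set T0 := (List.range m).foldl (fun T j => prn w M (T.flatMap fun t => chd t j)) [g] with hT0
      have hT' : ∀ t' ∈ T0.flatMap (fun t => chd t m), Valid t' ∧ t'.length = g.length ∧
          (∀ u, own t' u = own g u) ∧ (∀ u, own g u = false → suc t' u = suc g u) ∧
          (∀ u < m + 1, own g u = true → ∃ x, suc t' u = [x]) := by
        intro t' ht'
        rw [List.mem_flatMap] at ht'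
        obtain ⟨t, ht, htt'⟩ := ht'
        obtain ⟨a1, a2, a3, a4, a5⟩ := ih1 t ht
        obtain ⟨b1, -, -⟩ := hC t m v a1 (by rw [a2]; omega) (by rw [a2]; exact hv)
        obtain ⟨c1, c2, -, c4, c5, c6, c7⟩ := b1 t' htt'
        refine ⟨c1, c2.trans a2, fun u => ((c4 u).1).trans (a3 u), ?_, ?_⟩
        · intro u hu
          by_cases hum : u = m
          · subst hum
            rw [c6 (by rw [a3]; exact hu)]
            exact a4 u hu
          · rw [c5 u hum]
            exact a4 u hu
        · intro u hu hou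
          by_cases hum : u = m
          · subst hum
            exact c7 (by rw [a3]; exact hou)
          · rw [c5 u hum]
            exact a5 u (by omega) hou
      obtain ⟨p1, -, p3⟩ := hP w M v g.length hM hsel (T0.flatMap fun t => chd t m)
        (fun t ht => ⟨(hT' t ht).1, (hT' t ht).2.1⟩)
      rw [hT]
      refine ⟨fun t ht => hT' t (p1 t ht), ?_⟩
      rw [p3, ← ih2]
      constructor
      · rintro ⟨t', ht', h⟩
        rw [List.mem_flatMap] at ht'
        obtain ⟨t, ht, htt'⟩ := ht'
        obtain ⟨a1, a2, -, -, -⟩ := ih1 t ht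
        obtain ⟨-, -, b3⟩ := hC t m v a1 (by rw [a2]; omega) (by rw [a2]; exact hv)
        exact ⟨t, ht, b3.mpr ⟨t', htt', h⟩⟩
      · rintro ⟨t, ht, h⟩
        obtain ⟨a1, a2, -, -, -⟩ := ih1 t ht
        obtain ⟨-, -, b3⟩ := hC t m v a1 (by rw [a2]; omega) (by rw [a2]; exact hv)
        obtain ⟨t', htt', h'⟩ := b3.mp h
        exact ⟨t', List.mem_flatMap.mpr ⟨t, ht, htt'⟩, h'⟩
  obtain ⟨k1, k2⟩ := key g.length le_rfl (lvs w M g) rfl
  refine ⟨fun t ht => ?_, k2⟩
  obtain ⟨a1, a2, a3, a4, a5⟩ := k1 t ht
  exact ⟨a1, a2, fun u hu => ⟨a3 u, a4 u, fun h => a5 u hu h⟩⟩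

end Pool.PG
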