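import Pool.Agent.H22.PG.CAT

set_option autoImplicit false

namespace Pool.PG

open Filter TMLib

open H22

namespace H22

lemma vx_org_zero (n v : ℕ) (ts : List Game) : vx (org n v ts) 0 =
    ((true, 1), 0 :: (List.range ts.length).map fun k => 1 + k * n + v) := rfl

lemma vx_org_succ (n v : ℕ) (ts : List Game) (x : ℕ) :
    vx (org n v ts) (x + 1) = vx (glue 1 n ts) x := rfl

end H22

theorem org_row (hE : EMBStmt) (hG : GLUStmt) (hS : SOLStmt) (_hW : WINStmt) : ORGStmt := by
  intro n v ts hv hts
  obtain ⟨hlen, hvx⟩ := hG 1 n ts (fun p hp => (hts p hp).2)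
  have hn : 0 < n := by omega
  have hlen' : (org n v ts).length = 1 + ts.length * n := by
    unfold org
    rw [List.length_cons, hlen, Nat.add_comm]
  have hvx' : ∀ k < ts.length, ∀ u < n,
      vx (org n v ts) (1 + k * n + u) = shE (1 + k * n) (vx (ts.getD k []) u) := by
    intro k hk u hu
    have h1 := hvx k hk u hu
    have h2 : 1 + k * n + u = (k * n + u) + 1 := by ring
    rw [h2, vx_org_succ]
    exact h1
  have hmem0 : ∀ w, w ∈ suc (org n v ts) 0 ↔ w = 0 ∨ ∃ k < ts.length, w = 1 + k * n + v := by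
    intro w
    unfold suc
    rw [vx_org_zero]
    simp only [List.mem_cons, List.mem_map, List.mem_range]
    constructor
    · rintro (h | ⟨k, hk, rfl⟩)
      · exact Or.inl h
      · exact Or.inr ⟨k, hk, rfl⟩
    · rintro (h | ⟨k, hk, rfl⟩)
      · exact Or.inl h
      · exact Or.inr ⟨k, hk, rfl⟩
  have hbd : ∀ k < ts.length, ∀ u < n, 1 + k * n + u < 1 + ts.length * n := by
    intro k hk u hu
    have h1 : (k + 1) * n ≤ ts.length * n := Nat.mul_le_mul_right n hk
    have h2 : (k + 1) * n = k * n + n := by ring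
    omega
  have hval : Valid (org n v ts) := by
    intro x hx
    rw [hlen'] at hx
    rw [hlen']
    rcases Nat.eq_zero_or_pos x with h0 | h0
    · subst h0
      refine ⟨?_, ?_⟩
      · unfold suc
        rw [vx_org_zero]
        exact List.cons_ne_nil _ _
      · intro w hw
        rcases (hmem0 w).mp hw with h | ⟨k, hk, rfl⟩
        · omega
        · exact hbd k hk v hv
    · have hk : (x - 1) / n < ts.length := Nat.div_lt_of_lt_mul (by rw [Nat.mul_comm]; omega)
      have hu : (x - 1) % n < n := Nat.mod_lt _ hn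
      have hdm : n * ((x - 1) / n) + (x - 1) % n = x - 1 := Nat.div_add_mod (x - 1) n
      have hx' : 1 + (x - 1) / n * n + (x - 1) % n = x := by
        rw [Nat.mul_comm] at hdm
        omega
      obtain ⟨hV, hl⟩ := hts _ (getD_mem ts _ hk)
      obtain ⟨h1, h2⟩ := hV ((x - 1) % n) (by rw [hl]; exact hu)
      have h3 : suc (org n v ts) x = (suc (ts.getD ((x - 1) / n) []) ((x - 1) % n)).map
          fun w => w + (1 + (x - 1) / n * n) := by
        have h4 := hvx' _ hk _ hu
        rw [hx'] at h4
        unfold suc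
        rw [h4]
        rfl
      rw [h3]
      refine ⟨fun h => h1 (List.map_eq_nil_iff.mp h), ?_⟩
      intro w hw
      rw [List.mem_map] at hw
      obtain ⟨w', hw', rfl⟩ := hw
      have h4 := h2 w' hw'
      rw [hl] at h4
      have h5 := hbd _ hk w' h4
      omega
  refine ⟨hval, hlen', ?_⟩
  have hemb : ∀ k < ts.length, ∀ u < n,
      win (org n v ts) (1 + k * n + u) = win (ts.getD k []) u := by
    intro k hk u hu
    obtain ⟨hV, hl⟩ := hts _ (getD_mem ts k hk)
    refine hE (ts.getD k []) (org n v ts) (fun u => 1 + k * n + u) hV hval ?_ u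
      (by rw [hl]; exact hu)
    intro u' hu'
    rw [hl] at hu'
    have h1 := hvx' k hk u' hu'
    refine ⟨?_, ?_, ?_, ?_⟩
    · rw [hlen']; exact hbd k hk u' hu'
    · unfold own; rw [h1]; rfl
    · unfold pri; rw [h1]; rfl
    · unfold suc; rw [h1, suc_sh]
      exact List.map_congr_left fun w _ => Nat.add_comm _ _
  obtain ⟨⟨σ, hσ⟩, -⟩ := hS (org n v ts) hval
  have h0 : 0 < (org n v ts).length := by rw [hlen']; omega
  have hown : own (org n v ts) 0 = true := rfl
  constructor
  · intro hw
    have h1 := hσ.mem 0 h0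
    have h2 := hσ.stay 0 h0 (by rw [hown, hw])
    rw [hw] at h2
    rcases (hmem0 _).mp h1 with h3 | ⟨k, hk, h3⟩
    · exfalso
      have h4 := hσ.won 0 h0 (fun _ => 0) ⟨rfl, fun _ => by
        rw [hmem0]; exact Or.inl rfl⟩ (fun _ _ => h3.symm)
      rw [hw] at h4
      obtain ⟨p, hp1, -, hp3⟩ := h4
      obtain ⟨m, hm⟩ := hp1.exists
      have h5 : pri (org n v ts) 0 = 1 := rfl
      simp only [h5] at hm
      rw [← hm] at hp3
      have h6 := hp3.mpr rfl
      exact absurd h6 (by decide)
    · rw [h3, hemb k hk v hv] at h2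
      exact ⟨_, getD_mem ts k hk, h2⟩
  · rintro ⟨t, ht, htw⟩
    by_contra hcon
    have hf : win (org n v ts) 0 = false := by
      cases h : win (org n v ts) 0
      · rfl
      · exact absurd h hcon
    obtain ⟨k, hk, rfl⟩ := List.getElem_of_mem ht
    have h1 := hσ.trap 0 h0 (by rw [hown, hf]; decide) (1 + k * n + v)
      ((hmem0 _).mpr (Or.inr ⟨k, hk, rfl⟩))
    rw [hemb k hk v hv, hf, List.getD_eq_getElem _ _ hk, htw] at h1
    exact absurd h1 (by decide)

end Pool.PG
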