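import Pool.Agent.H59.PG.Stmts
import Pool.Agent.TM.Lib2

set_option autoImplicit false

namespace Pool.PG

open Filter TMLib

namespace PSR22

lemma map_le {α β γ : Type} [Enc β] [Enc γ] (l : List α) (f : α → β) (g : α → γ)
    (h : ∀ a ∈ l, sz (f a) ≤ sz (g a)) : sz (l.map f) ≤ sz (l.map g) := by
  induction l with
  | nil => simp
  | cons a l ih =>
    have h1 := h a List.mem_cons_self
    have h2 := ih (fun b hb => h b (List.mem_cons_of_mem _ hb))
    simp only [List.map_cons, sz_cons]
    omega

lemma map_vx (g : Game) : (List.range g.length).map (vx g) = g := by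
  apply List.ext_getElem
  · simp
  · intro n h1 h2
    rw [List.getElem_map, List.getElem_range]
    unfold vx
    rw [List.getD_eq_getElem _ _ h2]

lemma sz_res (g : Game) (j w : ℕ) (hw : w ∈ suc g j) : sz (res g j w) ≤ sz g := by
  conv_rhs => rw [← map_vx g]
  unfold res
  apply map_le
  intro u _
  split_ifs with h
  · subst h
    have h1 : sz (vx g u) = 1 + sz (vx g u).1 + sz (suc g u) := sz_pair _
    have h2 : sz ((vx g u).1, [w]) = 1 + sz (vx g u).1 + sz ([w] : List ℕ) := sz_pair _
    have h3 : sz ([w] : List ℕ) = 1 + sz w + 1 := by simp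
    have h4 : ∀ l : List ℕ, w ∈ l → 1 + sz w + 1 ≤ sz l := by
      intro l
      induction l with
      | nil => intro h; simp at h
      | cons a l ih =>
        intro h
        have h5 := sz_pos l
        rw [sz_cons]
        rcases List.mem_cons.mp h with h | h
        · subst h
          omega
        · have := ih h
          omega
    have h5 := h4 _ hw
    omega
  · exact le_refl _

lemma sz_chd (g t : Game) (j : ℕ) (ht : t ∈ chd g j) : sz t ≤ sz g := by
  unfold chd at ht
  split_ifs at ht with h
  · rw [List.mem_map] at ht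
    obtain ⟨w, hw, rfl⟩ := ht
    exact sz_res g j w hw
  · rw [List.mem_singleton] at ht
    rw [ht]

lemma mem_pr1 (w : List Game → ℕ) (M : ℕ) (T : List Game) : ∀ t ∈ pr1 w M T, t ∈ T := by
  intro t ht
  unfold pr1 at ht
  split_ifs at ht
  · exact ht
  · exact List.mem_of_mem_eraseIdx ht

lemma mem_iter (w : List Game → ℕ) (M k : ℕ) : ∀ T : List Game, ∀ t ∈ (pr1 w M)^[k] T, t ∈ T := by
  induction k with
  | zero => intro T t ht; exact ht
  | succ k ih =>
    intro T t ht
    rw [Function.iterate_succ_apply] at ht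
    exact mem_pr1 w M T t (ih _ t ht)

lemma mem_prn (w : List Game → ℕ) (M : ℕ) (T : List Game) : ∀ t ∈ prn w M T, t ∈ T := by
  intro t ht
  exact mem_iter w M _ T t (List.mem_of_mem_take ht)

lemma len_prn (w : List Game → ℕ) (M : ℕ) (T : List Game) : (prn w M T).length ≤ M := by
  unfold prn
  exact List.length_take_le _ _

lemma fold_bd (w : List Game → ℕ) (M K : ℕ) (l : List ℕ) : ∀ T : List Game,
    (T.length ≤ 1 + M ∧ ∀ t ∈ T, sz t ≤ K) →
    (l.foldl (fun T j => prn w M (T.flatMap fun t => chd t j)) T).length ≤ 1 + M ∧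
      ∀ t ∈ l.foldl (fun T j => prn w M (T.flatMap fun t => chd t j)) T, sz t ≤ K := by
  induction l with
  | nil => intro T hT; exact hT
  | cons j l ih =>
    intro T hT
    rw [List.foldl_cons]
    apply ih
    refine ⟨(len_prn _ _ _).trans (by omega), fun t ht => ?_⟩
    have h1 := mem_prn _ _ _ t ht
    rw [List.mem_flatMap] at h1
    obtain ⟨t', ht', h2⟩ := h1
    exact (sz_chd t' t j h2).trans (hT.2 t' ht')

end PSR22

open PSR22

theorem psr_row (hPP : PPRStmt) (hPC : PDCStmt) : PSRStmt := by
  intro α _ w M leaf hw hM hleaf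
  have hprn := hPP α w M hw hM
  have hchd := hPC.2
  have hf : PTime (fun p : (α × Game) × List Game × ℕ =>
      prn (w p.1.1) (M p.1.1) (p.2.1.flatMap fun t => chd t p.2.2)) := by
    have h1 : PTime (fun p : (α × Game) × List Game × ℕ =>
        p.2.1.flatMap fun t => chd t p.2.2) :=
      PTime.flatMap (l := fun p : (α × Game) × List Game × ℕ => p.2.1)
        (g := fun p t => chd t p.2.2) (PTime.fst (PTime.snd PTime.id))
        (hchd.comp (PTime.pair (PTime.snd PTime.id)
          (PTime.snd (PTime.snd (PTime.fst PTime.id)))))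
    exact hprn.comp (PTime.pair (PTime.fst (PTime.fst PTime.id)) h1)
  have hfold : PTime (fun p : α × Game => lvs (w p.1) (M p.1) p.2) := by
    refine PTime.foldl (α := α × Game) (σ := List Game) (β := ℕ)
      (f := fun p T j => prn (w p.1) (M p.1) (T.flatMap fun t => chd t j))
      (init := fun p => [p.2]) (l := fun p => List.range p.2.length)
      hf (PTime.cons (PTime.snd PTime.id) (PTime.const []))
      (PTime.range (PTime.length (PTime.snd PTime.id)))
      (h := fun p => 1 + (1 + sz (M p.1)) * (1 + sz p.2)) ?_ ?_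
    · exact (PB.const 1).add (((PB.const 1).add (hM.comp (PTime.fst PTime.id)).pb).mul
        ((PB.const 1).add (PTime.snd (PTime.id (α := α × Game))).pb))
    · intro p l' _
      obtain ⟨h1, h2⟩ := fold_bd (w p.1) (M p.1) (sz p.2) l' [p.2]
        ⟨by simp, fun t ht => by rw [List.mem_singleton] at ht; rw [ht]⟩
      refine sz_list_le _ _ _ (h1.trans ?_) h2
      have : sz (M p.1) = 2 * M p.1 + 1 := sz_nat _
      omega
  exact PTime.any (l := fun p : α × Game => lvs (w p.1) (M p.1) p.2)
    (g := fun p t => leaf p.1 t) hfold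
    (hleaf.comp (PTime.pair (PTime.fst (PTime.fst PTime.id)) (PTime.snd PTime.id)))

end Pool.PG
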